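import Pool.Agent.Lib.MP_e471a0_nt.Main

set_option autoImplicit false

/-!
Six cubes: all but `C B^(7/2 - η/200)` of the solutions of
`x_0^3 + x_1^3 + x_2^3 = x_3^3 + x_4^3 + x_5^3`, `|x_i| ≤ B`, are typical: no coordinate has a divisor
in `(B^η, B^(1/4-η)]`, each coordinate is a number at most `B^η` times at most four primes larger
than `B^(1/4-η)`, and the coordinates are coprime and squarefree up to factors at most `B^η`. The
numbers of this shape are at most `K η B` in number. So a power saving over `B^(7/2)` for all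
solutions is equivalent to a power saving for the typical ones.
-/

namespace Pool.Agent.Results.MP_e471a0_nt.AlmostPrimeReduction

open SixCubes

open scoped Classical in
theorem result : ∃ K : ℝ, ∀ η : ℝ, 0 < η → η ≤ 1 / 20 →
    (∃ C : ℝ, ∀ B : ℕ, 1 ≤ B →
      (((Sol B).filter (fun x => ¬ Typ η B x)).card : ℝ) ≤ C * (B : ℝ) ^ (7 / 2 - η / 200)) ∧
    (∃ B0 : ℕ, ∀ B : ℕ, B0 ≤ B →
      (((Finset.Icc (-(B : ℤ)) (B : ℤ)).filter (fun x => Shape η B x)).card : ℝ) ≤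
        K * η * B) ∧
    ((∃ θ : ℝ, θ < 7 / 2 ∧ ∃ C : ℝ, ∀ B : ℕ, 1 ≤ B → ((Sol B).card : ℝ) ≤ C * (B : ℝ) ^ θ) ↔
      (∃ θ : ℝ, θ < 7 / 2 ∧ ∃ C : ℝ, ∀ B : ℕ, 1 ≤ B →
        (((Sol B).filter (fun x => Typ η B x)).card : ℝ) ≤ C * (B : ℝ) ^ θ)) := by
  obtain ⟨K, hK⟩ := part_three
  exact ⟨K, fun η h0 h1 => ⟨part_two h0 h1, hK η h0 h1, part_four h0 h1⟩⟩

end Pool.Agent.Results.MP_e471a0_nt.AlmostPrimeReduction
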